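import Pool.Agent.T2h31.SB.All

/-!
# The KLS conjecture (Cheeger form) for the bodies cut out of the cube by the hyperplanes `x_i = ± x_j`

Q1 for all convex bodies in `[-1,1]ⁿ` which are given by any relations of the forms `x_i ≤ x_j`,
`x_i + x_j ≤ 0`, `x_i + x_j ≥ 0`, `x_i ≤ 0`, `x_i ≥ 0`, in the position in which they are given. After
`x ↦ (1 + x)/2` these are all bodies in `[0,1]ⁿ` given by relations `x_i ≤ x_j`, `x_i + x_j ≤ 1`,
`x_i + x_j ≥ 1`: the fractional stable set polytopes and vertex cover polytopes of all graphs, the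
linear relaxations of all instances of 2-SAT, and the order polytopes (starting result
`OrderPolytopes`, the case of the relations `x_i ≤ x_j` only).

Method. (1) Poincare's inequality with constant `1/2` by a path coupling in the style of Bubley and
Dyer, for the hyperoctahedral group: the labels `1, ..., n` are placed on the odd numbers between `-2N`
and `2N` with different absolute values; the chain exchanges the contents of the positions `2k-1` and
`2k+1` and of their negatives (for `k = 0` the sign of the label at the position one) at the rate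
`(N² - k²)/2`. The generator maps the position of one particle to its negative, and two
configurations which differ by a reflection `i ↔ j`, `-i ↔ -j` can be coupled such that their distance
`j - i` decreases in the mean at the rate one, whatever the relations are; so the spectral gap is at
least one. Limit `N → ∞`. (2) The linear functionals are not controlled by symmetric functions as for
order polytopes (their means may differ, and the coordinate sum may have a small variance). The flow
of the vector field `(x_i - x_i³)` preserves all these bodies, and integration by parts shows that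
`⟨u, x⟩` has variance at least `1/63` for a coordinate `u` or for `u` proportional to the mean of
`(x_i - x_i³)`: even symmetric functions have the same means over all the bodies. (3) From Poincare's
to Cheeger's inequality as in `OrderPolytopes`; the halfspace constant bounds the variances because
it forces exponential tails of the one-dimensional marginals (starting files, modules `W695.KH`,
`R656.OP2`, `R310.OP2`, `Y211.FF`).

Parts by helpers 5, 7, 25, 32, 69, 71, 84 and 31 (modules `T2h31.SB`).
-/

set_option autoImplicit false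

namespace Pool.Agent.Results.MP_8d00da_gt.SignedOrderPolytopes

open MeasureTheory Set
open scoped ENNReal InnerProductSpace

/-- Euclidean space of dimension `n` -/
abbrev Euc (n : ℕ) : Type := EuclideanSpace ℝ (Fin n)

/-- `{x ∈ [-1,1]ⁿ | x_i ≤ x_j if A i j, x_i + x_j ≤ 0 if B i j, x_i + x_j ≥ 0 if C i j}` -/
def signedBody {n : ℕ} (A B C : Fin n → Fin n → Prop) : Set (Euc n) :=
  {x | (∀ i, -1 ≤ x i ∧ x i ≤ 1) ∧ (∀ i j, A i j → x i ≤ x j) ∧
    (∀ i j, B i j → x i + x j ≤ 0) ∧ ∀ i j, C i j → 0 ≤ x i + x j}

/-- the uniform probability measure on `K` -/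
noncomputable def unif {n : ℕ} (K : Set (Euc n)) : Measure (Euc n) :=
  (volume K)⁻¹ • volume.restrict K

/-- Minkowski (exterior) boundary measure `μ⁺(A)` -/
noncomputable def bdry {n : ℕ} (μ : Measure (Euc n)) (A : Set (Euc n)) : ℝ≥0∞ :=
  Filter.liminf (fun ε : ℝ => (μ (Metric.thickening ε A) - μ A) / ENNReal.ofReal ε)
    (nhdsWithin 0 (Set.Ioi 0))

/-- the halfspace `⟪u, x⟫ ≤ b` -/
def halfspace {n : ℕ} (u : Euc n) (b : ℝ) : Set (Euc n) := {x | inner ℝ u x ≤ b}

/-- the inequality of Kannan, Lovasz and Simonovits with constant `c` for the uniform measure `μ` on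
`K`: if `t min(μ H, 1 - μ H) ≤ μ⁺(H)` for all halfspaces `H` then
`c t min(μ A, 1 - μ A) ≤ μ⁺(A)` for all measurable `A` -/
def KLS {n : ℕ} (c : ℝ) (K : Set (Euc n)) : Prop :=
  ∀ t : ℝ≥0∞, (∀ (u : Euc n) (b : ℝ), u ≠ 0 →
      t * min (unif K (halfspace u b)) (1 - unif K (halfspace u b)) ≤
        bdry (unif K) (halfspace u b)) →
    ∀ A : Set (Euc n), MeasurableSet A →
      ENNReal.ofReal c * t * min (unif K A) (1 - unif K A) ≤ bdry (unif K) A

/-- the relation on signed labels -/
def rel {n : ℕ} (A B C : Fin n → Fin n → Prop) (p q : Fin n × Bool) : Prop :=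
  (p.2 = true ∧ q.2 = true ∧ A p.1 q.1) ∨ (p.2 = true ∧ q.2 = false ∧ B p.1 q.1) ∨
    (p.2 = false ∧ q.2 = true ∧ C p.1 q.1)

theorem signedBody_eq {n : ℕ} (A B C : Fin n → Fin n → Prop) :
    signedBody A B C = Pool.Agent.T2h31.SB.SE (rel A B C) := by
  ext x
  constructor
  · rintro ⟨h0, hA, hB, hC⟩
    refine ⟨h0, ?_⟩
    rintro ⟨i, s⟩ ⟨j, t⟩ (⟨h1, h2, h3⟩ | ⟨h1, h2, h3⟩ | ⟨h1, h2, h3⟩)
    · simp only at h1 h2 h3
      subst h1 h2
      simpa [Pool.Agent.T2h31.SB.sv] using hA i j h3
    · simp only at h1 h2 h3
      subst h1 h2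
      have h := hB i j h3
      simp only [Pool.Agent.T2h31.SB.sv, if_true, Bool.false_eq_true, if_false]
      linarith
    · simp only at h1 h2 h3
      subst h1 h2
      have h := hC i j h3
      simp only [Pool.Agent.T2h31.SB.sv, if_true, Bool.false_eq_true, if_false]
      linarith
  · rintro ⟨h0, h⟩
    refine ⟨h0, fun i j hij => ?_, fun i j hij => ?_, fun i j hij => ?_⟩
    · have h1 := h (i, true) (j, true) (Or.inl ⟨rfl, rfl, hij⟩)
      simpa [Pool.Agent.T2h31.SB.sv] using h1
    · have h1 := h (i, true) (j, false) (Or.inr (Or.inl ⟨rfl, rfl, hij⟩))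
      simp only [Pool.Agent.T2h31.SB.sv, if_true, Bool.false_eq_true, if_false] at h1
      linarith
    · have h1 := h (i, false) (j, true) (Or.inr (Or.inr ⟨rfl, rfl, hij⟩))
      simp only [Pool.Agent.T2h31.SB.sv, if_true, Bool.false_eq_true, if_false] at h1
      linarith

/-- **KLS (Cheeger form) for the bodies cut out of the cube by the hyperplanes `x_i = ± x_j`,
`x_i = 0`.** There is an absolute constant `c > 0` such that for all `n ≥ 1` and all sets of relations
`x_i ≤ x_j`, `x_i + x_j ≤ 0`, `x_i + x_j ≥ 0` (with `i = j` also `x_i ≤ 0`, `x_i ≥ 0`) the body `K` of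
the points of `[-1,1]ⁿ` which satisfy them, if it has an interior point, is a convex body which
satisfies the inequality of Kannan, Lovasz and Simonovits with constant `c`, for all measurable sets;
moreover `c min(μ A, 1 - μ A) ≤ μ⁺(A)` for all measurable `A`, where `μ` is the uniform measure. -/
theorem result : ∃ c : ℝ, 0 < c ∧ ∀ (n : ℕ) (A B C : Fin n → Fin n → Prop), 1 ≤ n →
    (interior (signedBody A B C)).Nonempty →
    (IsCompact (signedBody A B C) ∧ Convex ℝ (signedBody A B C)) ∧ KLS c (signedBody A B C) ∧
    ∀ S : Set (Euc n), MeasurableSet S →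
      ENNReal.ofReal c * min (unif (signedBody A B C) S) (1 - unif (signedBody A B C) S) ≤
        bdry (unif (signedBody A B C)) S := by
  obtain ⟨c, hc, H⟩ := Pool.Agent.T2h31.SB.fin_all
  refine ⟨c, hc, fun n A B C hn hi => ?_⟩
  rw [signedBody_eq] at hi ⊢
  obtain ⟨h1, h2⟩ := H n (rel A B C) hi
  obtain ⟨-, -, hcp, hco⟩ := Pool.Agent.T2h31.SB.t_TRG n (rel A B C)
  refine ⟨⟨hcp, hco⟩, ?_, fun S hS => h1 S hS⟩
  obtain ⟨θ, hθ, H2⟩ := h2 hn
  intro t ht S hS
  refine H2 t (fun b => ?_) S hS
  refine ht θ b ?_
  intro h0
  rw [h0, norm_zero] at hθ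
  exact zero_ne_one hθ

end Pool.Agent.Results.MP_8d00da_gt.SignedOrderPolytopes
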