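import Pool.Agent.T2h31.LC.All

/-!
# The KLS conjecture under signed relations: bodies cut out of the cube, and products of an even log-concave law

(1) Q1 for all convex bodies in `[-1,1]ⁿ` which are given by any relations of the forms `x_i ≤ x_j`,
`x_i + x_j ≤ 0`, `x_i + x_j ≥ 0`, `x_i ≤ 0`, `x_i ≥ 0`, in the position in which they are given. After
`x ↦ (1 + x)/2` these are all bodies in `[0,1]ⁿ` given by relations `x_i ≤ x_j`, `x_i + x_j ≤ 1`,
`x_i + x_j ≥ 1`: the fractional stable set polytopes and vertex cover polytopes of all graphs, the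
linear relaxations of all instances of 2-SAT, and the order polytopes (starting result
`OrderPolytopes`, the case of the relations `x_i ≤ x_j` only).

(2) The conjecture in the Poincare form for the log-concave measures obtained from `μⁿ`, `μ` any even
log-concave law on the line, by conditioning on any relations of these forms, again in the position
in which they are given, with the constant `3528` (for the squares). For example: independent Gaussian,
Laplace or logistic variables, given any signed relations.

Method. (1) Poincare's inequality with constant `1/2` by a path coupling in the style of Bubley and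
Dyer, for the hyperoctahedral group: the labels `1, ..., n` are placed on the odd numbers between `-2N`
and `2N` with different absolute values; the chain exchanges the contents of the positions `2k-1` and
`2k+1` and of their negatives (for `k = 0` the sign of the label at the position one) at the rate
`(N² - k²)/2`. The generator maps the position of one particle to its negative, and two
configurations which differ by a reflection `i ↔ j`, `-i ↔ -j` can be coupled such that their distance
`j - i` decreases in the mean at the rate one, whatever the relations are; so the spectral gap is at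
least one. Limit `N → ∞`. The linear functionals are not controlled by symmetric functions as for
order polytopes (their means may differ, and the coordinate sum may have a small variance). The flow
of the vector field `(x_i - x_i³)` preserves all these bodies, and integration by parts shows that
`⟨u, x⟩` has variance at least `1/63` for a coordinate `u` or for `u` proportional to the mean of
`(x_i - x_i³)`: even symmetric functions have the same means over all the bodies. From Poincare's
to Cheeger's inequality as in `OrderPolytopes`; the halfspace constant bounds the variances because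
it forces exponential tails of the one-dimensional marginals (starting files, modules `W695.KH`,
`R656.OP2`, `R310.OP2`, `Y211.FF`).

(2) If `q` is the odd increasing map from `(-1,1)` to the line which maps the uniform law to `μ` then
the measure is the image of the uniform measure on a body of (1). Since `μ` is log-concave
`(1 - |s|) q'(s)` is at most a constant times the deviation of `μ`, so what is needed is
Poincare's inequality on the body with the weight `(1 - |x_i|)²`. It comes from the same coupling with
another rate function: the distance of two configurations is `W(j) - W(i)` for the eigenfunction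
`W` of the chain of one particle, `W` close to the slope of `√(1 - |x|)`. The lower bound of the
variance of a linear functional comes again from the flow of `(s - s³)`, transported by `q`.

Parts of (1) by helpers 5, 7, 25, 32, 69, 71, 84 and 31 (modules `T2h31.SB`), of (2) by helpers 4, 5,
21, 57, 58, 64, 67, 85, 90 and 31 (modules `T2h31.LC`).
-/

set_option autoImplicit false

namespace Pool.Agent.Results.MP_8d00da_gt.SignedRelations

open MeasureTheory Set
open scoped ENNReal InnerProductSpace

/-- Euclidean space of dimension `n` -/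
abbrev Euc (n : ℕ) : Type := EuclideanSpace ℝ (Fin n)

/-- `{x ∈ [-1,1]ⁿ | x_i ≤ x_j if A i j, x_i + x_j ≤ 0 if B i j, x_i + x_j ≥ 0 if C i j}` -/
def signedBody {n : ℕ} (A B C : Fin n → Fin n → Prop) : Set (Euc n) :=
  {x | (∀ i, -1 ≤ x i ∧ x i ≤ 1) ∧ (∀ i j, A i j → x i ≤ x j) ∧
    (∀ i j, B i j → x i + x j ≤ 0) ∧ ∀ i j, C i j → 0 ≤ x i + x j}

/-- the uniform probability measure on `K` -/
noncomputable def unif {n : ℕ} (K : Set (Euc n)) : Measure (Euc n) :=
  (volume K)⁻¹ • volume.restrict K

/-- Minkowski (exterior) boundary measure `μ⁺(A)` -/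
noncomputable def bdry {n : ℕ} (μ : Measure (Euc n)) (A : Set (Euc n)) : ℝ≥0∞ :=
  Filter.liminf (fun ε : ℝ => (μ (Metric.thickening ε A) - μ A) / ENNReal.ofReal ε)
    (nhdsWithin 0 (Set.Ioi 0))

/-- the halfspace `⟪u, x⟫ ≤ b` -/
def halfspace {n : ℕ} (u : Euc n) (b : ℝ) : Set (Euc n) := {x | inner ℝ u x ≤ b}

/-- the inequality of Kannan, Lovasz and Simonovits with constant `c` for the uniform measure `μ` on
`K`: if `t min(μ H, 1 - μ H) ≤ μ⁺(H)` for all halfspaces `H` then
`c t min(μ A, 1 - μ A) ≤ μ⁺(A)` for all measurable `A` -/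
def KLS {n : ℕ} (c : ℝ) (K : Set (Euc n)) : Prop :=
  ∀ t : ℝ≥0∞, (∀ (u : Euc n) (b : ℝ), u ≠ 0 →
      t * min (unif K (halfspace u b)) (1 - unif K (halfspace u b)) ≤
        bdry (unif K) (halfspace u b)) →
    ∀ A : Set (Euc n), MeasurableSet A →
      ENNReal.ofReal c * t * min (unif K A) (1 - unif K A) ≤ bdry (unif K) A

/-- the relation on signed labels -/
def rel {n : ℕ} (A B C : Fin n → Fin n → Prop) (p q : Fin n × Bool) : Prop :=
  (p.2 = true ∧ q.2 = true ∧ A p.1 q.1) ∨ (p.2 = true ∧ q.2 = false ∧ B p.1 q.1) ∨
    (p.2 = false ∧ q.2 = true ∧ C p.1 q.1)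

theorem signedBody_eq {n : ℕ} (A B C : Fin n → Fin n → Prop) :
    signedBody A B C = Pool.Agent.T2h31.SB.SE (rel A B C) := by
  ext x
  constructor
  · rintro ⟨h0, hA, hB, hC⟩
    refine ⟨h0, ?_⟩
    rintro ⟨i, s⟩ ⟨j, t⟩ (⟨h1, h2, h3⟩ | ⟨h1, h2, h3⟩ | ⟨h1, h2, h3⟩)
    · simp only at h1 h2 h3
      subst h1 h2
      simpa [Pool.Agent.T2h31.SB.sv] using hA i j h3
    · simp only at h1 h2 h3
      subst h1 h2
      have h := hB i j h3
      simp only [Pool.Agent.T2h31.SB.sv, if_true, Bool.false_eq_true, if_false]
      linarith
    · simp only at h1 h2 h3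
      subst h1 h2
      have h := hC i j h3
      simp only [Pool.Agent.T2h31.SB.sv, if_true, Bool.false_eq_true, if_false]
      linarith
  · rintro ⟨h0, h⟩
    refine ⟨h0, fun i j hij => ?_, fun i j hij => ?_, fun i j hij => ?_⟩
    · have h1 := h (i, true) (j, true) (Or.inl ⟨rfl, rfl, hij⟩)
      simpa [Pool.Agent.T2h31.SB.sv] using h1
    · have h1 := h (i, true) (j, false) (Or.inr (Or.inl ⟨rfl, rfl, hij⟩))
      simp only [Pool.Agent.T2h31.SB.sv, if_true, Bool.false_eq_true, if_false] at h1
      linarith
    · have h1 := h (i, false) (j, true) (Or.inr (Or.inr ⟨rfl, rfl, hij⟩))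
      simp only [Pool.Agent.T2h31.SB.sv, if_true, Bool.false_eq_true, if_false] at h1
      linarith

/-- `{x ∈ ℝⁿ | x_i ≤ x_j if A i j, x_i + x_j ≤ 0 if B i j, x_i + x_j ≥ 0 if C i j}` -/
def signedCone {n : ℕ} (A B C : Fin n → Fin n → Prop) : Set (Fin n → ℝ) :=
  {x | (∀ i j, A i j → x i ≤ x j) ∧ (∀ i j, B i j → x i + x j ≤ 0) ∧ ∀ i j, C i j → 0 ≤ x i + x j}

/-- `f` is an even log-concave probability density on the line -/
def EvenLogConcaveDensity (f : ℝ → ℝ) : Prop :=
  (∀ x, 0 ≤ f x) ∧ (∀ x, f (-x) = f x) ∧
    (∀ x y t : ℝ, 0 < t → t < 1 → f x ^ (1 - t) * f y ^ t ≤ f ((1 - t) * x + t * y)) ∧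
    ∫ x, f x = 1

/-- the law of `n` independent variables with the density `f` -/
noncomputable def power (n : ℕ) (f : ℝ → ℝ) : Measure (Fin n → ℝ) :=
  Measure.pi fun _ => volume.withDensity fun x => ENNReal.ofReal (f x)

/-- the conjecture of Kannan, Lovasz and Simonovits in Poincare's form with the constant `C` for `ν`:
if `s` bounds the variances of all linear functionals `⟨θ, x⟩` with `|θ| = 1` then the variance of
every `C¹` function `g` in `L²(ν)` with the gradient in `L²(ν)` is at most `C s ∫ |∇g|² dν` -/
def KLSPoincare {n : ℕ} (C : ℝ) (ν : Measure (Fin n → ℝ)) : Prop :=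
  ∀ s : ℝ, (∀ θ : Fin n → ℝ, ∑ i, θ i ^ 2 = 1 →
    ProbabilityTheory.variance (fun x => ∑ i, θ i * x i) ν ≤ s) →
  ∀ g : (Fin n → ℝ) → ℝ, ContDiff ℝ 1 g → MemLp g 2 ν →
    Integrable (fun x => ∑ i, (fderiv ℝ g x (Pi.single i 1)) ^ 2) ν →
    ProbabilityTheory.variance g ν ≤ C * s * ∫ x, ∑ i, (fderiv ℝ g x (Pi.single i 1)) ^ 2 ∂ν

theorem signedCone_eq {n : ℕ} (A B C : Fin n → Fin n → Prop) :
    signedCone A B C =
      {x : Fin n → ℝ | ∀ p q, rel A B C p q →
        Pool.Agent.T2h31.SB.sv x p ≤ Pool.Agent.T2h31.SB.sv x q} := by
  ext x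
  constructor
  · rintro ⟨hA, hB, hC⟩
    rintro ⟨i, s⟩ ⟨j, t⟩ (⟨h1, h2, h3⟩ | ⟨h1, h2, h3⟩ | ⟨h1, h2, h3⟩)
    · simp only at h1 h2 h3
      subst h1 h2
      simpa [Pool.Agent.T2h31.SB.sv] using hA i j h3
    · simp only at h1 h2 h3
      subst h1 h2
      have h := hB i j h3
      simp only [Pool.Agent.T2h31.SB.sv, if_true, Bool.false_eq_true, if_false]
      linarith
    · simp only at h1 h2 h3
      subst h1 h2
      have h := hC i j h3
      simp only [Pool.Agent.T2h31.SB.sv, if_true, Bool.false_eq_true, if_false]
      linarith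
  · intro h
    refine ⟨fun i j hij => ?_, fun i j hij => ?_, fun i j hij => ?_⟩
    · have h1 := h (i, true) (j, true) (Or.inl ⟨rfl, rfl, hij⟩)
      simpa [Pool.Agent.T2h31.SB.sv] using h1
    · have h1 := h (i, true) (j, false) (Or.inr (Or.inl ⟨rfl, rfl, hij⟩))
      simp only [Pool.Agent.T2h31.SB.sv, if_true, Bool.false_eq_true, if_false] at h1
      linarith
    · have h1 := h (i, false) (j, true) (Or.inr (Or.inr ⟨rfl, rfl, hij⟩))
      simp only [Pool.Agent.T2h31.SB.sv, if_true, Bool.false_eq_true, if_false] at h1
      linarith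

theorem lcf_of {f : ℝ → ℝ} (hf : EvenLogConcaveDensity f) : Pool.Agent.T2h31.LC.LCf f := by
  obtain ⟨h0, -, hlc, h1⟩ := hf
  refine ⟨h0, hlc, ?_, by rw [h1]; exact one_pos⟩
  by_contra hI
  rw [integral_undef hI] at h1
  exact zero_ne_one h1

/-- **The KLS conjecture under signed relations.**
(1) There is an absolute constant `c > 0` such that for all `n ≥ 1` and all sets of relations
`x_i ≤ x_j`, `x_i + x_j ≤ 0`, `x_i + x_j ≥ 0` (with `i = j` also `x_i ≤ 0`, `x_i ≥ 0`) the body `K` of
the points of `[-1,1]ⁿ` which satisfy them, if it has an interior point, is a convex body which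
satisfies the inequality of Kannan, Lovasz and Simonovits with constant `c`, for all measurable sets;
moreover `c min(μ A, 1 - μ A) ≤ μ⁺(A)` for all measurable `A`, where `μ` is the uniform measure.
(2) If `X_1, ..., X_n` are independent with the same even log-concave density `f`, then, given any
such relations which hold with positive probability, their conditional law `ν` satisfies the
conjecture in Poincare's form with the constant `3528`: the variance of a `C¹` function `g` is
at most `3528 s ∫ |∇g|² dν` if `s` bounds the variances of the linear functionals `⟨θ, x⟩` with `|θ| = 1`. -/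
theorem result :
    (∃ c : ℝ, 0 < c ∧ ∀ (n : ℕ) (A B C : Fin n → Fin n → Prop), 1 ≤ n →
      (interior (signedBody A B C)).Nonempty →
      (IsCompact (signedBody A B C) ∧ Convex ℝ (signedBody A B C)) ∧ KLS c (signedBody A B C) ∧
      ∀ S : Set (Euc n), MeasurableSet S →
        ENNReal.ofReal c * min (unif (signedBody A B C) S) (1 - unif (signedBody A B C) S) ≤
          bdry (unif (signedBody A B C)) S) ∧
    ∀ (n : ℕ) (f : ℝ → ℝ) (A B C : Fin n → Fin n → Prop), 1 ≤ n → EvenLogConcaveDensity f →
      power n f (signedCone A B C) ≠ 0 →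
      IsProbabilityMeasure (ProbabilityTheory.cond (power n f) (signedCone A B C)) ∧
      KLSPoincare 3528 (ProbabilityTheory.cond (power n f) (signedCone A B C)) := by
  refine ⟨?_, ?_⟩
  · obtain ⟨c, hc, H⟩ := Pool.Agent.T2h31.SB.fin_all
    refine ⟨c, hc, fun n A B C hn hi => ?_⟩
    rw [signedBody_eq] at hi ⊢
    obtain ⟨h1, h2⟩ := H n (rel A B C) hi
    obtain ⟨-, -, hcp, hco⟩ := Pool.Agent.T2h31.SB.t_TRG n (rel A B C)
    refine ⟨⟨hcp, hco⟩, ?_, fun S hS => h1 S hS⟩
    obtain ⟨θ, hθ, H2⟩ := h2 hn
    intro t ht S hS
    refine H2 t (fun b => ?_) S hS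
    refine ht θ b ?_
    intro h0
    rw [h0, norm_zero] at hθ
    exact zero_ne_one hθ
  · intro n f A B C hn hf hpos
    have hL := lcf_of hf
    have hprob : IsProbabilityMeasure (volume.withDensity fun x => ENNReal.ofReal (f x)) := by
      refine ⟨?_⟩
      rw [withDensity_apply _ MeasurableSet.univ, Measure.restrict_univ,
        ← ofReal_integral_eq_lintegral_ofReal hL.int (Filter.Eventually.of_forall hL.nonneg),
        hf.2.2.2, ENNReal.ofReal_one]
    have hp2 : IsProbabilityMeasure (power n f) := by
      unfold power
      infer_instance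
    refine ⟨ProbabilityTheory.cond_isProbabilityMeasure hpos, ?_⟩
    rw [signedCone_eq] at hpos ⊢
    exact Pool.Agent.T2h31.LC.meab_all n hn f _ hL hf.2.2.2 rfl hf.2.1 (rel A B C) hpos

end Pool.Agent.Results.MP_8d00da_gt.SignedRelations
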